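import Mathlib

open Set Real Filter Topology

namespace Pool.Agent.Results.MP_1debac_an.HotSpots

/-- A compact metric graph: finitely many vertices and edges, the edge `e` being a copy of
`[0, len e]` whose end `0` is the vertex `src e` and whose end `len e` is the vertex `tgt e`
(loops and multiple edges are allowed). -/
structure MetricGraph where
  V : Type
  E : Type
  [finV : Fintype V]
  [finE : Fintype E]
  [decV : DecidableEq V]
  src : E → V
  tgt : E → V
  len : E → ℝ
  len_pos : ∀ e, 0 < len e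

attribute [instance] MetricGraph.finV MetricGraph.finE MetricGraph.decV

namespace MetricGraph

variable (G : MetricGraph)

/-- The graph is connected (and nonempty). -/
def Connected : Prop :=
  Nonempty G.V ∧ ∀ v w : G.V, Relation.EqvGen (fun a b => ∃ e, G.src e = a ∧ G.tgt e = b) v w

/-- The points of the metric graph: its vertices and the interior points of its edges. -/
abbrev Pt : Type := G.V ⊕ (Σ e : G.E, Ioo (0 : ℝ) (G.len e))

open Classical in
/-- The restriction of a function on the graph to the closed edge `e`, as a function of the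
coordinate `x` in `[0, len e]`. -/
noncomputable def onEdge (F : G.Pt → ℝ) (e : G.E) (x : ℝ) : ℝ :=
  if h : x ∈ Ioo (0 : ℝ) (G.len e) then F (Sum.inr ⟨e, ⟨x, h⟩⟩)
    else if x ≤ 0 then F (Sum.inl (G.src e)) else F (Sum.inl (G.tgt e))

/-- `F` (with edgewise derivative `D`) satisfies `-F'' = μ F` on every closed edge, and at every
vertex `v` the sum of the derivatives taken into the edges equals `α v * F v`.  The continuity of
`F` on the graph is part of this, since each restriction to a closed edge is differentiable. -/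
def IsSolution (α : G.V → ℝ) (μ : ℝ) (F : G.Pt → ℝ) (D : G.E → ℝ → ℝ) : Prop :=
  (∀ e, ∀ x ∈ Icc (0 : ℝ) (G.len e),
    HasDerivWithinAt (G.onEdge F e) (D e x) (Icc (0 : ℝ) (G.len e)) x ∧
    HasDerivWithinAt (D e) (-μ * G.onEdge F e x) (Icc (0 : ℝ) (G.len e)) x) ∧
  ∀ v, ∑ e, ((if G.src e = v then D e 0 else 0) + (if G.tgt e = v then -D e (G.len e) else 0)) =
    α v * F (Sum.inl v)

lemma onEdge_add (F F' : G.Pt → ℝ) (e : G.E) (x : ℝ) :
    G.onEdge (F + F') e x = G.onEdge F e x + G.onEdge F' e x := by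
  unfold onEdge; split_ifs <;> rfl

lemma onEdge_smul (c : ℝ) (F : G.Pt → ℝ) (e : G.E) (x : ℝ) :
    G.onEdge (c • F) e x = c * G.onEdge F e x := by
  unfold onEdge; split_ifs <;> rfl

/-- The space of real solutions for the parameter `μ`: the eigenspace of `μ` (zero if `μ` is not
an eigenvalue). -/
def eigenspace (α : G.V → ℝ) (μ : ℝ) : Submodule ℝ (G.Pt → ℝ) where
  carrier := {F | ∃ D, G.IsSolution α μ F D}
  add_mem' := by
    rintro F F' ⟨D, h1, h2⟩ ⟨D', h1', h2'⟩
    refine ⟨fun e x => D e x + D' e x, ?_, ?_⟩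
    · intro e x hx
      have e1 : G.onEdge (F + F') e = fun x => G.onEdge F e x + G.onEdge F' e x :=
        funext (G.onEdge_add F F' e)
      constructor
      · rw [e1]
        exact (h1 e x hx).1.add (h1' e x hx).1
      · rw [G.onEdge_add, mul_add]
        exact (h1 e x hx).2.add (h1' e x hx).2
    · intro v
      have := congrArg₂ (· + ·) (h2 v) (h2' v)
      simp only [← Finset.sum_add_distrib] at this
      rw [Pi.add_apply, mul_add, ← this]
      apply Finset.sum_congr rfl
      intro e _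
      split_ifs <;> ring
  zero_mem' := by
    refine ⟨fun _ _ => 0, ?_, ?_⟩
    · intro e x _
      have e1 : G.onEdge (0 : G.Pt → ℝ) e = fun _ => 0 := by
        funext x; unfold onEdge; split_ifs <;> rfl
      rw [e1]
      constructor
      · exact hasDerivWithinAt_const _ _ _
      · simpa using hasDerivWithinAt_const (x := x) (s := Icc (0 : ℝ) (G.len e)) (c := (0 : ℝ))
    · intro v
      simp
  smul_mem' := by
    rintro c F ⟨D, h1, h2⟩
    refine ⟨fun e x => c * D e x, ?_, ?_⟩
    · intro e x hx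
      have e1 : G.onEdge (c • F) e = fun x => c * G.onEdge F e x :=
        funext (G.onEdge_smul c F e)
      constructor
      · rw [e1]
        exact (h1 e x hx).1.const_mul c
      · rw [G.onEdge_smul, mul_left_comm]
        exact (h1 e x hx).2.const_mul c
    · intro v
      have := congrArg (c * ·) (h2 v)
      simp only [Finset.mul_sum] at this
      rw [Pi.smul_apply, smul_eq_mul, mul_left_comm, ← this]
      apply Finset.sum_congr rfl
      intro e _
      split_ifs <;> ring

/-- `μ` is the second eigenvalue, eigenvalues being counted with multiplicity: the eigenspaces of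
the numbers below `μ` span a space of dimension less than two, those of the numbers up to `μ` span
a space of dimension at least two. -/
def IsSecond (α : G.V → ℝ) (μ : ℝ) : Prop :=
  Module.rank ℝ (⨆ ν ∈ Iio μ, G.eigenspace α ν : Submodule ℝ (G.Pt → ℝ)) < 2 ∧
  2 ≤ Module.rank ℝ (⨆ ν ∈ Iic μ, G.eigenspace α ν : Submodule ℝ (G.Pt → ℝ))

/-- The set `M`: the points at which some nonzero eigenfunction of the second eigenvalue attains
its global maximum or its global minimum. -/
def hotSpots (α : G.V → ℝ) : Set G.Pt :=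
  {p | ∃ μ, G.IsSecond α μ ∧ ∃ F ∈ G.eigenspace α μ, F ≠ 0 ∧
    ((∀ y, F y ≤ F p) ∨ (∀ y, F p ≤ F y))}

end MetricGraph

/-! ### The example: two edges of length one between two vertices, strengths `1` and `-1` -/

/-- The equilateral pumpkin with two edges. -/
noncomputable def pumpkin : MetricGraph where
  V := Bool
  E := Bool
  src := fun _ => false
  tgt := fun _ => true
  len := fun _ => 1
  len_pos := fun _ => one_pos

/-- The strengths. -/
def str (v : Bool) : ℝ := if v then -1 else 1

/-! ### Solutions of the differential equation on one edge -/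

lemma const_of_deriv {P : ℝ → ℝ}
    (h : ∀ x ∈ Icc (0 : ℝ) 1, HasDerivWithinAt P 0 (Icc (0 : ℝ) 1) x) :
    ∀ x ∈ Icc (0 : ℝ) 1, P x = P 0 := by
  apply constant_of_derivWithin_zero
  · intro x hx
    exact (h x hx).differentiableWithinAt
  · intro x hx
    have hx' : x ∈ Icc (0 : ℝ) 1 := Ico_subset_Icc_self hx
    exact (h x hx').derivWithin (uniqueDiffOn_Icc one_pos x hx')

lemma ode_neg {f g : ℝ → ℝ} {κ : ℝ} (hκ : κ ≠ 0)
    (hf : ∀ x ∈ Icc (0 : ℝ) 1, HasDerivWithinAt f (g x) (Icc (0 : ℝ) 1) x)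
    (hg : ∀ x ∈ Icc (0 : ℝ) 1, HasDerivWithinAt g (κ ^ 2 * f x) (Icc (0 : ℝ) 1) x) :
    ∀ x ∈ Icc (0 : ℝ) 1, f x = f 0 * cosh (κ * x) + g 0 / κ * sinh (κ * x) ∧
      g x = κ * f 0 * sinh (κ * x) + g 0 * cosh (κ * x) := by
  have hc : ∀ x, HasDerivAt (fun x : ℝ => cosh (κ * x)) (κ * sinh (κ * x)) x := by
    intro x
    have h1 : HasDerivAt (fun x : ℝ => κ * x) κ x := by
      simpa using (hasDerivAt_id x).const_mul κ
    have h2 := h1.cosh
    rwa [mul_comm] at h2
  have hs : ∀ x, HasDerivAt (fun x : ℝ => sinh (κ * x)) (κ * cosh (κ * x)) x := by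
    intro x
    have h1 : HasDerivAt (fun x : ℝ => κ * x) κ x := by
      simpa using (hasDerivAt_id x).const_mul κ
    have h2 := h1.sinh
    rwa [mul_comm] at h2
  have hP := const_of_deriv (P := fun x => κ * f x * cosh (κ * x) - g x * sinh (κ * x)) (by
    intro x hx
    have h1 := (((hf x hx).const_mul κ).mul (hc x).hasDerivWithinAt).sub
      ((hg x hx).mul (hs x).hasDerivWithinAt)
    refine h1.congr_deriv ?_
    ring)
  have hQ := const_of_deriv (P := fun x => g x * cosh (κ * x) - κ * f x * sinh (κ * x)) (by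
    intro x hx
    have h1 := ((hg x hx).mul (hc x).hasDerivWithinAt).sub
      (((hf x hx).const_mul κ).mul (hs x).hasDerivWithinAt)
    refine h1.congr_deriv ?_
    ring)
  intro x hx
  have e1 := hP x hx
  have e2 := hQ x hx
  simp only [mul_zero, cosh_zero, sinh_zero, mul_one, sub_zero] at e1 e2
  have e3 := Real.cosh_sq_sub_sinh_sq (κ * x)
  constructor
  · have : κ * f x = κ * (f 0 * cosh (κ * x) + g 0 / κ * sinh (κ * x)) := by
      have e4 : κ * (f 0 * cosh (κ * x) + g 0 / κ * sinh (κ * x)) =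
          κ * f 0 * cosh (κ * x) + g 0 * sinh (κ * x) := by field_simp
      rw [e4, ← e1, ← e2]
      linear_combination (-κ * f x) * e3
    exact mul_left_cancel₀ hκ this
  · rw [← e1, ← e2]
    linear_combination (-g x) * e3

lemma ode_zero {f g : ℝ → ℝ}
    (hf : ∀ x ∈ Icc (0 : ℝ) 1, HasDerivWithinAt f (g x) (Icc (0 : ℝ) 1) x)
    (hg : ∀ x ∈ Icc (0 : ℝ) 1, HasDerivWithinAt g 0 (Icc (0 : ℝ) 1) x) :
    ∀ x ∈ Icc (0 : ℝ) 1, f x = f 0 + g 0 * x ∧ g x = g 0 := by
  have hQ := const_of_deriv hg
  have hP := const_of_deriv (P := fun x => f x - g 0 * x) (by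
    intro x hx
    have h1 := (hf x hx).sub (((hasDerivAt_id x).const_mul (g 0)).hasDerivWithinAt)
    refine h1.congr_deriv ?_
    rw [hQ x hx]; ring)
  intro x hx
  have e1 := hP x hx
  simp only [mul_zero, sub_zero] at e1
  exact ⟨by linarith, hQ x hx⟩

lemma ode_pos {f g : ℝ → ℝ} {κ : ℝ} (hκ : κ ≠ 0)
    (hf : ∀ x ∈ Icc (0 : ℝ) 1, HasDerivWithinAt f (g x) (Icc (0 : ℝ) 1) x)
    (hg : ∀ x ∈ Icc (0 : ℝ) 1, HasDerivWithinAt g (-κ ^ 2 * f x) (Icc (0 : ℝ) 1) x) :
    ∀ x ∈ Icc (0 : ℝ) 1, f x = f 0 * cos (κ * x) + g 0 / κ * sin (κ * x) ∧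
      g x = -κ * f 0 * sin (κ * x) + g 0 * cos (κ * x) := by
  have hc : ∀ x, HasDerivAt (fun x : ℝ => cos (κ * x)) (-κ * sin (κ * x)) x := by
    intro x
    have h1 : HasDerivAt (fun x : ℝ => κ * x) κ x := by
      simpa using (hasDerivAt_id x).const_mul κ
    have h2 := h1.cos
    refine h2.congr_deriv ?_
    ring
  have hs : ∀ x, HasDerivAt (fun x : ℝ => sin (κ * x)) (κ * cos (κ * x)) x := by
    intro x
    have h1 : HasDerivAt (fun x : ℝ => κ * x) κ x := by
      simpa using (hasDerivAt_id x).const_mul κ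
    have h2 := h1.sin
    rwa [mul_comm] at h2
  have hP := const_of_deriv (P := fun x => κ * f x * cos (κ * x) - g x * sin (κ * x)) (by
    intro x hx
    have h1 := (((hf x hx).const_mul κ).mul (hc x).hasDerivWithinAt).sub
      ((hg x hx).mul (hs x).hasDerivWithinAt)
    refine h1.congr_deriv ?_
    ring)
  have hQ := const_of_deriv (P := fun x => g x * cos (κ * x) + κ * f x * sin (κ * x)) (by
    intro x hx
    have h1 := ((hg x hx).mul (hc x).hasDerivWithinAt).add
      (((hf x hx).const_mul κ).mul (hs x).hasDerivWithinAt)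
    refine h1.congr_deriv ?_
    ring)
  intro x hx
  have e1 := hP x hx
  have e2 := hQ x hx
  simp only [mul_zero, cos_zero, sin_zero, mul_one, sub_zero, add_zero] at e1 e2
  have e3 := Real.cos_sq_add_sin_sq (κ * x)
  constructor
  · have : κ * f x = κ * (f 0 * cos (κ * x) + g 0 / κ * sin (κ * x)) := by
      have e4 : κ * (f 0 * cos (κ * x) + g 0 / κ * sin (κ * x)) =
          κ * f 0 * cos (κ * x) + g 0 * sin (κ * x) := by field_simp
      rw [e4, ← e1, ← e2]
      linear_combination (-κ * f x) * e3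
    exact mul_left_cancel₀ hκ this
  · have e5 : -κ * f 0 * sin (κ * x) = -(κ * f 0) * sin (κ * x) := by ring
    rw [e5, ← e1, ← e2]
    linear_combination (-g x) * e3

/-! ### The eigenspaces of the example -/

open MetricGraph

lemma on_zero (F : pumpkin.Pt → ℝ) (e : pumpkin.E) : pumpkin.onEdge F e 0 = F (Sum.inl false) := by
  unfold onEdge
  rw [dif_neg (by simp), if_pos le_rfl]
  rfl

lemma on_one (F : pumpkin.Pt → ℝ) (e : pumpkin.E) : pumpkin.onEdge F e 1 = F (Sum.inl true) := by
  unfold onEdge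
  rw [dif_neg (by simp [pumpkin]), if_neg (by norm_num)]
  rfl

lemma on_int (F : pumpkin.Pt → ℝ) (e : pumpkin.E) (x : ℝ) (hx : x ∈ Ioo (0 : ℝ) (pumpkin.len e)) :
    pumpkin.onEdge F e x = F (Sum.inr ⟨e, ⟨x, hx⟩⟩) := by
  unfold onEdge
  rw [dif_pos hx]

lemma vertex_eqs {μ : ℝ} {F : pumpkin.Pt → ℝ} {D : pumpkin.E → ℝ → ℝ}
    (h : pumpkin.IsSolution str μ F D) :
    D false 0 + D true 0 = F (Sum.inl false) ∧ D false 1 + D true 1 = F (Sum.inl true) := by
  have h0 := h.2 false
  have h1 := h.2 true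
  have key : ∀ f : pumpkin.E → ℝ, ∑ e, f e = f true + f false := by
    intro f
    exact Fintype.sum_bool f
  rw [key] at h0 h1
  have h0' : (D true 0 + 0) + (D false 0 + 0) = 1 * F (Sum.inl false) := h0
  have h1' : (0 + -D true 1) + (0 + -D false 1) = -1 * F (Sum.inl true) := h1
  constructor <;> linarith

lemma edge_ode {μ : ℝ} {F : pumpkin.Pt → ℝ} {D : pumpkin.E → ℝ → ℝ}
    (h : pumpkin.IsSolution str μ F D) (e : pumpkin.E) :
    (∀ x ∈ Icc (0 : ℝ) 1, HasDerivWithinAt (pumpkin.onEdge F e) (D e x) (Icc (0 : ℝ) 1) x) ∧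
    (∀ x ∈ Icc (0 : ℝ) 1, HasDerivWithinAt (D e) (-μ * pumpkin.onEdge F e x)
      (Icc (0 : ℝ) 1) x) :=
  ⟨fun x hx => (h.1 e x hx).1, fun x hx => (h.1 e x hx).2⟩

/-- The ground state. -/
noncomputable def ground : pumpkin.Pt → ℝ
  | Sum.inl false => 1
  | Sum.inl true => exp (1 / 2)
  | Sum.inr ⟨_, x⟩ => exp (x / 2)

lemma eq_smul_ground {F : pumpkin.Pt → ℝ} (a : ℝ) (h0 : F (Sum.inl false) = a)
    (h : ∀ e : pumpkin.E, ∀ x ∈ Icc (0 : ℝ) 1, pumpkin.onEdge F e x = a * exp (x / 2)) :
    F = a • ground := by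
  funext p
  rw [Pi.smul_apply, smul_eq_mul]
  match p with
  | Sum.inl false => rw [h0]; simp [ground]
  | Sum.inl true =>
    rw [← on_one F true, h true 1 (by simp)]; rfl
  | Sum.inr ⟨e, ⟨x, hx⟩⟩ =>
    rw [← on_int F e x hx, h e x ⟨hx.1.le, hx.2.le⟩]; rfl

lemma low {μ : ℝ} (hμ : μ < π ^ 2) {F : pumpkin.Pt → ℝ} (hF : F ∈ pumpkin.eigenspace str μ) :
    F = F (Sum.inl false) • ground := by
  obtain ⟨D, h⟩ := hF
  obtain ⟨v0, v1⟩ := vertex_eqs h
  apply eq_smul_ground _ rfl
  set a := F (Sum.inl false) with ha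
  set c := F (Sum.inl true) with hc
  rcases lt_trichotomy μ 0 with hneg | hzero | hpos
  · -- negative
    set κ := √(-μ) with hκ
    have hκ0 : 0 < κ := Real.sqrt_pos.2 (by linarith)
    have hκ2 : κ ^ 2 = -μ := Real.sq_sqrt (by linarith)
    have sol : ∀ e : pumpkin.E, ∀ x ∈ Icc (0 : ℝ) 1,
        pumpkin.onEdge F e x = a * cosh (κ * x) + D e 0 / κ * sinh (κ * x) ∧
        D e x = κ * a * sinh (κ * x) + D e 0 * cosh (κ * x) := by
      intro e x hx
      obtain ⟨o1, o2⟩ := edge_ode h e
      have := ode_neg hκ0.ne' o1 (by rw [hκ2]; exact o2) x hx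
      rwa [on_zero] at this
    have hs : 0 < sinh κ := Real.sinh_pos_iff.2 hκ0
    have e1 := (sol false 1 (by simp)).1
    have e2 := (sol true 1 (by simp)).1
    have e3 := (sol false 1 (by simp)).2
    have e4 := (sol true 1 (by simp)).2
    rw [on_one, mul_one] at e1 e2
    rw [mul_one] at e3 e4
    have hd : D false 0 = D true 0 := by
      have : D false 0 / κ * sinh κ = D true 0 / κ * sinh κ := by linarith
      have := mul_right_cancel₀ hs.ne' this
      field_simp at this
      exact this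
    have hd0 : D true 0 = a / 2 := by linarith
    have hd1 : D false 0 = a / 2 := by linarith
    rw [hd1] at e1 e3
    rw [hd0] at e2 e4
    have key : a * (4 * κ ^ 2 - 1) = 0 := by
      have h1 : 2 * (κ * a * sinh κ + a / 2 * cosh κ) = a * cosh κ + a / 2 / κ * sinh κ := by
        linarith
      have h2 : (a * (4 * κ ^ 2 - 1)) * sinh κ = 0 := by
        field_simp at h1
        linear_combination h1
      exact (mul_eq_zero.1 h2).resolve_right hs.ne'
    intro e x hx
    have hde : D e 0 = a / 2 := by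
      cases e
      · exact hd1
      · exact hd0
    rw [(sol e x hx).1, hde]
    rcases mul_eq_zero.1 key with h0 | h0
    · rw [h0]; ring
    · have hk : κ = 1 / 2 := by
        have : (κ - 1 / 2) * (κ + 1 / 2) = 0 := by linarith
        rcases mul_eq_zero.1 this with h5 | h5
        · linarith
        · linarith
      rw [hk]
      have h6 : (1 / 2 : ℝ) * x = x / 2 := by ring
      rw [h6, ← Real.cosh_add_sinh (x / 2)]
      ring
  · -- zero
    have sol : ∀ e : pumpkin.E, ∀ x ∈ Icc (0 : ℝ) 1,
        pumpkin.onEdge F e x = a + D e 0 * x ∧ D e x = D e 0 := by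
      intro e x hx
      obtain ⟨o1, o2⟩ := edge_ode h e
      have := ode_zero o1 (by intro x hx; simpa [hzero] using o2 x hx) x hx
      rwa [on_zero] at this
    have e1 := (sol false 1 (by simp)).1
    have e2 := (sol true 1 (by simp)).1
    have e3 := (sol false 1 (by simp)).2
    have e4 := (sol true 1 (by simp)).2
    rw [on_one, mul_one] at e1 e2
    have hd : D false 0 = 0 := by linarith
    have hd' : D true 0 = 0 := by linarith
    have ha0 : a = 0 := by linarith
    intro e x hx
    have hde : D e 0 = 0 := by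
      cases e
      · exact hd
      · exact hd'
    rw [(sol e x hx).1, hde, ha0]
    ring
  · -- positive
    set κ := √μ with hκ
    have hκ0 : 0 < κ := Real.sqrt_pos.2 hpos
    have hκ2 : κ ^ 2 = μ := Real.sq_sqrt hpos.le
    have hκπ : κ < π := by
      by_contra hcon
      push Not at hcon
      have : π ^ 2 ≤ κ ^ 2 := by
        have := Real.pi_pos
        gcongr
      linarith
    have sol : ∀ e : pumpkin.E, ∀ x ∈ Icc (0 : ℝ) 1,
        pumpkin.onEdge F e x = a * cos (κ * x) + D e 0 / κ * sin (κ * x) ∧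
        D e x = -κ * a * sin (κ * x) + D e 0 * cos (κ * x) := by
      intro e x hx
      obtain ⟨o1, o2⟩ := edge_ode h e
      have := ode_pos hκ0.ne' o1 (by
        intro x hx
        have := o2 x hx
        rwa [hκ2]) x hx
      rwa [on_zero] at this
    have hs : 0 < sin κ := Real.sin_pos_of_pos_of_lt_pi hκ0 hκπ
    have e1 := (sol false 1 (by simp)).1
    have e2 := (sol true 1 (by simp)).1
    have e3 := (sol false 1 (by simp)).2
    have e4 := (sol true 1 (by simp)).2
    rw [on_one, mul_one] at e1 e2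
    rw [mul_one] at e3 e4
    have hd : D false 0 = D true 0 := by
      have : D false 0 / κ * sin κ = D true 0 / κ * sin κ := by linarith
      have := mul_right_cancel₀ hs.ne' this
      field_simp at this
      exact this
    have hd0 : D true 0 = a / 2 := by linarith
    have hd1 : D false 0 = a / 2 := by linarith
    rw [hd1] at e1 e3
    rw [hd0] at e2 e4
    have key : a = 0 := by
      have h1 : 2 * (-κ * a * sin κ + a / 2 * cos κ) = a * cos κ + a / 2 / κ * sin κ := by
        linarith
      have h2 : (a * (4 * κ ^ 2 + 1)) * sin κ = 0 := by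
        field_simp at h1
        linear_combination -h1
      have h3 := (mul_eq_zero.1 h2).resolve_right hs.ne'
      exact (mul_eq_zero.1 h3).resolve_right (by positivity)
    intro e x hx
    have hde : D e 0 = 0 := by
      cases e
      · rw [hd1, key]; ring
      · rw [hd0, key]; ring
    rw [(sol e x hx).1, hde, key]
    ring

lemma rank_low {S : Submodule ℝ (pumpkin.Pt → ℝ)}
    (hS : S = ⨆ ν ∈ Iio (π ^ 2), pumpkin.eigenspace str ν) : Module.rank ℝ S ≤ 1 := by
  have h1 : S ≤ Submodule.span ℝ {ground} := by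
    rw [hS]
    refine iSup₂_le ?_
    intro ν hν F hF
    rw [low hν hF]
    exact Submodule.smul_mem _ _ (Submodule.mem_span_singleton_self _)
  calc Module.rank ℝ S ≤ Module.rank ℝ (Submodule.span ℝ {ground}) := Submodule.rank_mono h1
    _ ≤ Cardinal.mk ({ground} : Set (pumpkin.Pt → ℝ)) := rank_span_le _
    _ = 1 := Cardinal.mk_singleton _

/-- The functions `a cos πx + (d e / π) sin πx`. -/
noncomputable def wave (a : ℝ) (d : Bool → ℝ) : pumpkin.Pt → ℝ
  | Sum.inl false => a
  | Sum.inl true => -a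
  | Sum.inr ⟨e, x⟩ => a * cos (π * x) + d e / π * sin (π * x)

lemma wave_on (a : ℝ) (d : Bool → ℝ) (e : pumpkin.E) {x : ℝ} (hx : x ∈ Icc (0 : ℝ) 1) :
    pumpkin.onEdge (wave a d) e x = a * cos (π * x) + d e / π * sin (π * x) := by
  rcases eq_or_lt_of_le hx.1 with h | h
  · rw [← h, on_zero]; simp [wave]
  rcases eq_or_lt_of_le hx.2 with h' | h'
  · rw [h', on_one]; simp [wave]
  · rw [on_int _ _ _ ⟨h, h'⟩]; rfl

lemma wave_mem {a : ℝ} {d : Bool → ℝ} (hd : d false + d true = a) :
    wave a d ∈ pumpkin.eigenspace str (π ^ 2) := by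
  have hπ := Real.pi_ne_zero
  have hc : ∀ x, HasDerivAt (fun x : ℝ => cos (π * x)) (-π * sin (π * x)) x := by
    intro x
    have h1 : HasDerivAt (fun x : ℝ => π * x) π x := by
      simpa using (hasDerivAt_id x).const_mul π
    have h2 := h1.cos
    refine h2.congr_deriv ?_
    ring
  have hs : ∀ x, HasDerivAt (fun x : ℝ => sin (π * x)) (π * cos (π * x)) x := by
    intro x
    have h1 : HasDerivAt (fun x : ℝ => π * x) π x := by
      simpa using (hasDerivAt_id x).const_mul π
    have h2 := h1.sin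
    rwa [mul_comm] at h2
  refine ⟨fun e x => -π * a * sin (π * x) + d e * cos (π * x), ?_, ?_⟩
  · intro e x hx
    have hx' : x ∈ Icc (0 : ℝ) 1 := hx
    show HasDerivWithinAt (pumpkin.onEdge (wave a d) e) _ (Icc (0 : ℝ) 1) x ∧
      HasDerivWithinAt _ _ (Icc (0 : ℝ) 1) x
    constructor
    · have h1 : HasDerivAt (fun x => a * cos (π * x) + d e / π * sin (π * x))
          (-π * a * sin (π * x) + d e * cos (π * x)) x := by
        have h2 := ((hc x).const_mul a).add ((hs x).const_mul (d e / π))
        refine h2.congr_deriv ?_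
        field_simp
      exact h1.hasDerivWithinAt.congr (fun y hy => wave_on a d e hy) (wave_on a d e hx')
    · have h2 := ((hs x).const_mul (-π * a)).add ((hc x).const_mul (d e))
      rw [wave_on a d e hx']
      refine (h2.congr_deriv ?_).hasDerivWithinAt
      field_simp
      ring
  · have key : ∀ f : pumpkin.E → ℝ, ∑ e, f e = f true + f false := by
      intro f
      exact Fintype.sum_bool f
    have w0 : wave a d (Sum.inl false) = a := rfl
    have w1 : wave a d (Sum.inl true) = -a := rfl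
    intro v
    cases v
    · rw [key]
      show ((-π * a * sin (π * 0) + d true * cos (π * 0)) + 0) +
        ((-π * a * sin (π * 0) + d false * cos (π * 0)) + 0) = 1 * wave a d (Sum.inl false)
      rw [w0]
      simp only [mul_zero, sin_zero, cos_zero]
      linarith
    · rw [key]
      show (0 + -(-π * a * sin (π * 1) + d true * cos (π * 1))) +
        (0 + -(-π * a * sin (π * 1) + d false * cos (π * 1))) = -1 * wave a d (Sum.inl true)
      rw [w1]
      simp only [mul_one, sin_pi, cos_pi]
      linarith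

/-- The midpoint of an edge. -/
noncomputable def mid (e : Bool) : pumpkin.Pt :=
  Sum.inr ⟨e, ⟨(1 / 2 : ℝ), ⟨by norm_num, by show (1 / 2 : ℝ) < 1; norm_num⟩⟩⟩

lemma wave_mid (a : ℝ) (d : Bool → ℝ) (e : Bool) : wave a d (mid e) = d e / π := by
  show a * cos (π * (1 / 2)) + d e / π * sin (π * (1 / 2)) = d e / π
  have h : π * (1 / 2) = π / 2 := by ring
  rw [h, cos_pi_div_two, sin_pi_div_two]; ring

lemma rank_high {S : Submodule ℝ (pumpkin.Pt → ℝ)}
    (hS : pumpkin.eigenspace str (π ^ 2) ≤ S) : 2 ≤ Module.rank ℝ S := by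
  have hπ := Real.pi_pos
  set w1 : pumpkin.Pt → ℝ := wave 0 (fun e => if e then -π else π) with hw1
  set w2 : pumpkin.Pt → ℝ := wave 1 (fun _ => 1 / 2) with hw2
  have m1 : w1 ∈ S := hS (wave_mem (by simp))
  have m2 : w2 ∈ S := hS (wave_mem (by norm_num))
  have hli : LinearIndependent ℝ ![(⟨w1, m1⟩ : S), ⟨w2, m2⟩] := by
    rw [LinearIndependent.pair_iff]
    intro s t hst
    have h1 := congrArg Subtype.val hst
    have h2 : s • w1 + t • w2 = 0 := h1
    have h3 := congrFun h2 (Sum.inl false)
    have h4 := congrFun h2 (mid false)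
    simp only [Pi.add_apply, Pi.smul_apply, smul_eq_mul, Pi.zero_apply] at h3 h4
    rw [hw1, hw2, wave_mid, wave_mid] at h4
    have h5 : w1 (Sum.inl false) = 0 := rfl
    have h6 : w2 (Sum.inl false) = 1 := rfl
    rw [h5, h6] at h3
    have ht : t = 0 := by linarith
    rw [ht] at h4
    simp [hπ.ne'] at h4
    exact ⟨h4, ht⟩
  have := hli.cardinal_le_rank
  simpa using this

lemma second_iff {μ : ℝ} (h : pumpkin.IsSecond str μ) : μ = π ^ 2 := by
  rcases lt_trichotomy μ (π ^ 2) with h1 | h1 | h1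
  · exfalso
    have h2 : (⨆ ν ∈ Iic μ, pumpkin.eigenspace str ν) ≤
        ⨆ ν ∈ Iio (π ^ 2), pumpkin.eigenspace str ν :=
      biSup_mono (fun ν hν => lt_of_le_of_lt hν h1)
    have h3 := (h.2.trans (Submodule.rank_mono h2)).trans (rank_low rfl)
    exact absurd h3 (by norm_num)
  · exact h1
  · exfalso
    have h2 : pumpkin.eigenspace str (π ^ 2) ≤ ⨆ ν ∈ Iio μ, pumpkin.eigenspace str ν :=
      le_biSup (fun ν => pumpkin.eigenspace str ν) (show π ^ 2 ∈ Iio μ from h1)
    exact absurd (rank_high h2) (not_le.2 h.1)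

lemma is_second : pumpkin.IsSecond str (π ^ 2) := by
  refine ⟨lt_of_le_of_lt (rank_low rfl) (by norm_num), rank_high ?_⟩
  exact le_biSup (fun ν => pumpkin.eigenspace str ν) (mem_Iic.2 (le_refl (π ^ 2)))

lemma deriv_nonpos {f : ℝ → ℝ} {d : ℝ} (h : HasDerivWithinAt f d (Icc (0 : ℝ) 1) 0)
    (hm : ∀ x ∈ Icc (0 : ℝ) 1, f x ≤ f 0) : d ≤ 0 := by
  have h1 := h.mono (Ioc_subset_Icc_self)
  have h2 := (hasDerivWithinAt_iff_tendsto_slope' (by simp)).1 h1
  have hne : (𝓝[Ioc (0 : ℝ) 1] (0 : ℝ)).NeBot := by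
    rw [nhdsWithin_Ioc_eq_nhdsGT one_pos]; infer_instance
  refine le_of_tendsto h2 ?_
  filter_upwards [self_mem_nhdsWithin] with x hx
  rw [slope_def_field]
  apply div_nonpos_of_nonpos_of_nonneg
  · linarith [hm x ⟨hx.1.le, hx.2⟩]
  · linarith [hx.1]

lemma low_vertex_aux {F : pumpkin.Pt → ℝ} (hF : F ∈ pumpkin.eigenspace str (π ^ 2))
    (hm : ∀ y, F y ≤ F (Sum.inl false)) : F = 0 := by
  have hπ := Real.pi_pos
  obtain ⟨D, h⟩ := hF
  obtain ⟨v0, v1⟩ := vertex_eqs h
  set a := F (Sum.inl false) with ha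
  have sol : ∀ e : pumpkin.E, ∀ x ∈ Icc (0 : ℝ) 1,
      pumpkin.onEdge F e x = a * cos (π * x) + D e 0 / π * sin (π * x) := by
    intro e x hx
    obtain ⟨o1, o2⟩ := edge_ode h e
    have := ode_pos hπ.ne' o1 o2 x hx
    rw [on_zero] at this
    exact this.1
  have hon : ∀ e : pumpkin.E, ∀ x : ℝ, pumpkin.onEdge F e x ≤ a := by
    intro e x
    unfold onEdge
    split_ifs
    · exact hm _
    · exact hm _
    · exact hm _
  have hd : ∀ e : pumpkin.E, D e 0 ≤ 0 := by
    intro e
    obtain ⟨o1, _⟩ := edge_ode h e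
    refine deriv_nonpos (o1 0 (by simp)) ?_
    intro x _
    rw [on_zero]
    exact hon e x
  have ha0 : -a ≤ a := by
    have h1 := sol false 1 (by simp)
    have h2 := hon false 1
    rw [h1, mul_one, cos_pi, sin_pi] at h2
    linarith
  have d1 := hd false
  have d2 := hd true
  have ha1 : a = 0 := by linarith
  have hd' : ∀ e : pumpkin.E, D e 0 = 0 := by
    intro e
    cases e
    · show D false 0 = 0
      linarith
    · show D true 0 = 0
      linarith
  funext p
  match p with
  | Sum.inl false => exact ha1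
  | Sum.inl true =>
    rw [← on_one F true, sol true 1 (by simp), hd', ha1]; simp
  | Sum.inr ⟨e, ⟨x, hx⟩⟩ =>
    rw [← on_int F e x hx, sol e x ⟨hx.1.le, hx.2.le⟩, hd', ha1]; simp

lemma vertex_not_hot : (Sum.inl false : pumpkin.Pt) ∉ pumpkin.hotSpots str := by
  rintro ⟨μ, hμ, F, hF, hne, hm⟩
  rw [second_iff hμ] at hF
  rcases hm with hm | hm
  · exact hne (low_vertex_aux hF hm)
  · apply hne
    have h1 : -F ∈ pumpkin.eigenspace str (π ^ 2) := Submodule.neg_mem _ hF
    have h2 := low_vertex_aux h1 (fun y => by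
      simp only [Pi.neg_apply, neg_le_neg_iff]
      exact hm y)
    exact neg_eq_zero.1 h2

lemma half_hot {x : ℝ} (hx : x ∈ Ioo (1 / 2 : ℝ) 1) :
    (Sum.inr ⟨false, ⟨x, ⟨by linarith [hx.1], hx.2⟩⟩⟩ : pumpkin.Pt) ∈ pumpkin.hotSpots str := by
  have hπ := Real.pi_pos
  set a := cos (π * x) with ha
  have ha0 : a ≤ 0 := by
    apply cos_nonpos_of_pi_div_two_le_of_le
    · nlinarith [hx.1]
    · nlinarith [hx.2]
  have ha1 : -1 ≤ a := neg_one_le_cos _
  have hb : 0 < sin (π * x) := by
    apply sin_pos_of_pos_of_lt_pi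
    · have := hx.1; positivity
    · nlinarith [hx.2]
  set d : Bool → ℝ := fun e => if e then a - π * sin (π * x) else π * sin (π * x) with hd
  have hmem : wave a d ∈ pumpkin.eigenspace str (π ^ 2) := by
    apply wave_mem
    simp [hd]
  have hval : wave a d (Sum.inr ⟨false, ⟨x, ⟨by linarith [hx.1], hx.2⟩⟩⟩) = 1 := by
    show a * cos (π * x) + d false / π * sin (π * x) = 1
    have h1 : d false = π * sin (π * x) := rfl
    rw [h1, ha]
    have h2 := Real.cos_sq_add_sin_sq (π * x)
    field_simp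
    linarith
  refine ⟨π ^ 2, is_second, wave a d, hmem, ?_, Or.inl ?_⟩
  · intro h0
    rw [h0] at hval
    simp at hval
  · intro y
    rw [hval]
    match y with
    | Sum.inl false => show a ≤ 1; linarith
    | Sum.inl true => show -a ≤ 1; linarith
    | Sum.inr ⟨false, ⟨y, hy⟩⟩ =>
      show a * cos (π * y) + d false / π * sin (π * y) ≤ 1
      have h1 : d false = π * sin (π * x) := rfl
      have h2 : a * cos (π * y) + d false / π * sin (π * y) = cos (π * x - π * y) := by
        rw [h1, ha, cos_sub]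
        field_simp
      rw [h2]
      exact cos_le_one _
    | Sum.inr ⟨true, ⟨y, hy⟩⟩ =>
      show a * cos (π * y) + d true / π * sin (π * y) ≤ 1
      have hy1 : y < 1 := hy.2
      have hy0 : 0 < y := hy.1
      have h1 : d true = a - π * sin (π * x) := rfl
      have h2 : d true / π ≤ 0 := by
        apply div_nonpos_of_nonpos_of_nonneg _ hπ.le
        rw [h1]
        have : 0 < π * sin (π * x) := by positivity
        linarith
      have h3 : 0 ≤ sin (π * y) := by
        apply sin_nonneg_of_nonneg_of_le_pi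
        · positivity
        · nlinarith
      have h4 : d true / π * sin (π * y) ≤ 0 := mul_nonpos_of_nonpos_of_nonneg h2 h3
      have h5 := neg_one_le_cos (π * y)
      have h6 := cos_le_one (π * y)
      nlinarith

lemma hot_infinite : (pumpkin.hotSpots str).Infinite := by
  have h1 : (Ioo (1 / 2 : ℝ) 1).Infinite := Ioo_infinite (by norm_num)
  have h2 : Infinite (Ioo (1 / 2 : ℝ) 1) := h1.to_subtype
  refine Set.infinite_of_injective_forall_mem
    (f := fun x : Ioo (1 / 2 : ℝ) 1 => (Sum.inr ⟨false, ⟨x.1, ⟨by linarith [x.2.1], x.2.2⟩⟩⟩ :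
      pumpkin.Pt)) ?_ (fun x => half_hot x.2)
  intro x y hxy
  simp only [Sum.inr.injEq, Sigma.mk.injEq, heq_eq_eq, Subtype.mk.injEq, true_and] at hxy
  exact Subtype.ext hxy

lemma pumpkin_connected : pumpkin.Connected := by
  refine ⟨⟨false⟩, ?_⟩
  have h : ∀ v : Bool, Relation.EqvGen
      (fun a b => ∃ e, pumpkin.src e = a ∧ pumpkin.tgt e = b) (false : pumpkin.V) v := by
    intro v
    cases v
    · exact Relation.EqvGen.refl _
    · exact Relation.EqvGen.rel _ _ ⟨false, rfl, rfl⟩
  intro v w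
  exact (Relation.EqvGen.symm _ _ (h v)).trans _ _ _ (h w)

/-- There are a compact connected metric graph and vertex strengths, not all zero, for which the
set of global extrema of second eigenfunctions is infinite but not the whole graph. -/
theorem result : ∃ (G : MetricGraph) (α : G.V → ℝ), G.Connected ∧ (∃ v, α v ≠ 0) ∧
    (G.hotSpots α).Infinite ∧ G.hotSpots α ≠ Set.univ := by
  refine ⟨pumpkin, str, pumpkin_connected, ⟨false, one_ne_zero⟩, hot_infinite, ?_⟩
  intro h
  exact vertex_not_hot (h ▸ mem_univ _)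

end Pool.Agent.Results.MP_1debac_an.HotSpots
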