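import Pool.Agent.Helper87.HQ.All

/-!
# No countably infinite hot-spot set

For every compact connected metric graph and every choice of real strengths of the
delta-conditions, the set `M` of the points at which some second eigenfunction attains its global
maximum or minimum is finite, or it contains a nondegenerate open interval of an edge and is
therefore uncountable.  So the answer to the second question of the problem is negative.
-/

set_option autoImplicit false

namespace Pool.Agent.Results.MP_1debac_an.NoCountable

open Set Pool.Agent.Helper87.HQ

theorem result (G : MetricGraph) (hG : G.Connected) (α : G.V → ℝ) :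
    (G.hotSpots α).Finite ∨
      (¬ (G.hotSpots α).Countable ∧
        ∃ (e : G.E) (a b : ℝ), 0 ≤ a ∧ a < b ∧ b ≤ G.len e ∧
          ∀ (x : ℝ) (h : x ∈ Ioo (0 : ℝ) (G.len e)), a < x → x < b →
            (Sum.inr ⟨e, ⟨x, h⟩⟩ : G.Pt) ∈ G.hotSpots α) :=
  final G α hG

end Pool.Agent.Results.MP_1debac_an.NoCountable
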